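import Pool.Agent.helper83.OD.Spec

/-!
# Project od (MP_ebc808_nt): module V11
-/

set_option autoImplicit false

open Finset PowerSeries

noncomputable section

namespace Pool.Agent.OD

open Pool.Agent.EP

theorem V11_eight (hV1 : V1_stmt) (hFRO : FRO_stmt) (N : ℤ) :
    (vvx ^ 8).coeff N ≠ 0 ↔ ∃ d : ℕ, d.Coprime 6 ∧ N = 8 * (d : ℤ) ^ 2 := by
  have h8 : vvx ^ 8 = vvx ^ (2 ^ 3) := by norm_num
  rw [h8, hFRO, hV1]
  constructor
  · intro h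
    have hd : (2 ^ 3 : ℤ) ∣ N := by
      by_contra hc
      rw [if_neg hc] at h
      exact h rfl
    rw [if_pos hd] at h
    have hu : ∃ u : ℕ, u.Coprime 6 ∧ N / 2 ^ 3 = (u : ℤ) ^ 2 := by
      by_contra hc
      rw [if_neg hc] at h
      exact h rfl
    obtain ⟨u, hu, he⟩ := hu
    refine ⟨u, hu, ?_⟩
    have := Int.mul_ediv_cancel' hd
    rw [he] at this
    rw [← this]
    norm_num
  · rintro ⟨d, hd, rfl⟩
    have hdvd : (2 ^ 3 : ℤ) ∣ 8 * (d : ℤ) ^ 2 := ⟨(d : ℤ) ^ 2, by norm_num⟩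
    rw [if_pos hdvd, if_pos]
    · exact one_ne_zero
    · refine ⟨d, hd, ?_⟩
      have h1 : (8 : ℤ) * (d : ℤ) ^ 2 = 2 ^ 3 * (d : ℤ) ^ 2 := by norm_num
      rw [h1, Int.mul_ediv_cancel_left _ (by norm_num)]

theorem V11_three (hVTH : VTH_stmt) (N : ℤ) :
    (vvx ^ 3).coeff N ≠ 0 ↔ ∃ c : ℕ, c % 2 = 1 ∧ N = 3 * (c : ℤ) ^ 2 := by
  rw [hVTH, tht]
  constructor
  · intro h
    by_contra hc
    rw [if_neg hc] at h
    exact h rfl
  · intro h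
    rw [if_pos h]
    exact one_ne_zero

theorem V11_one (x : ZMod 2) (h : x ≠ 0) : x = 1 := by
  revert x
  decide

/-- V11 -/
theorem V11 (hV1 : V1_stmt) (hFRO : FRO_stmt) (hVTH : VTH_stmt) : V11_stmt := by
  classical
  intro N
  have h11 : vvx ^ 11 = vvx ^ 3 * vvx ^ 8 := by rw [← pow_add]
  rw [h11, HahnSeries.coeff_mul, Finset.card_eq_sum_ones, Nat.cast_sum]
  symm
  refine Finset.sum_bij
    (fun (x : ℕ × ℕ) _ => ((3 * (x.1 : ℤ) ^ 2, 8 * (x.2 : ℤ) ^ 2) : ℤ × ℤ)) ?_ ?_ ?_ ?_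
  · rintro ⟨c, d⟩ hx
    rw [Finset.mem_filter] at hx
    obtain ⟨_, hc, hd, hs⟩ := hx
    rw [Finset.mem_antidiagonal]
    refine ⟨?_, ?_, ?_⟩
    · rw [HahnSeries.mem_support]
      exact (V11_three hVTH _).2 ⟨c, hc, rfl⟩
    · rw [HahnSeries.mem_support]
      exact (V11_eight hV1 hFRO _).2 ⟨d, hd, rfl⟩
    · have h5 : (3 : ℤ) * (c : ℤ) ^ 2 + 8 * (d : ℤ) ^ 2 = (N : ℤ) := by exact_mod_cast hs
      exact h5
  · rintro ⟨c, d⟩ _ ⟨c', d'⟩ _ h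
    have h1 : 3 * (c : ℤ) ^ 2 = 3 * (c' : ℤ) ^ 2 := (Prod.ext_iff.1 h).1
    have h2 : 8 * (d : ℤ) ^ 2 = 8 * (d' : ℤ) ^ 2 := (Prod.ext_iff.1 h).2
    have h3 : c ^ 2 = c' ^ 2 := by
      have : (c : ℤ) ^ 2 = (c' : ℤ) ^ 2 := by linarith
      exact_mod_cast this
    have h4 : d ^ 2 = d' ^ 2 := by
      have : (d : ℤ) ^ 2 = (d' : ℤ) ^ 2 := by linarith
      exact_mod_cast this
    exact Prod.ext (Nat.pow_left_injective (n := 2) (by norm_num) h3)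
      (Nat.pow_left_injective (n := 2) (by norm_num) h4)
  · rintro ⟨i, j⟩ hij
    rw [Finset.mem_antidiagonal] at hij
    obtain ⟨hi, hj, hs⟩ := hij
    rw [HahnSeries.mem_support] at hi hj
    simp only at hi hj hs
    obtain ⟨c, hc, rfl⟩ := (V11_three hVTH _).1 hi
    obtain ⟨d, hd, rfl⟩ := (V11_eight hV1 hFRO _).1 hj
    have hs' : 3 * c ^ 2 + 8 * d ^ 2 = N := by exact_mod_cast hs
    refine ⟨(c, d), ?_, rfl⟩
    rw [Finset.mem_filter, Finset.mem_product, Finset.mem_range, Finset.mem_range]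
    refine ⟨⟨?_, ?_⟩, hc, hd, hs'⟩
    · have : c ≤ c ^ 2 := Nat.le_self_pow (by norm_num) c
      simp only
      omega
    · have : d ≤ d ^ 2 := Nat.le_self_pow (by norm_num) d
      simp only
      omega
  · rintro ⟨c, d⟩ hx
    rw [Finset.mem_filter] at hx
    obtain ⟨_, hc, hd, hs⟩ := hx
    simp only
    rw [V11_one _ ((V11_three hVTH _).2 ⟨c, hc, rfl⟩),
      V11_one _ ((V11_eight hV1 hFRO _).2 ⟨d, hd, rfl⟩), mul_one, Nat.cast_one]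

end Pool.Agent.OD
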