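import Pool.Agent.helper21.OD.SpecA

/-! # Row od:ACS (MP_2e0e07_nt) -/

set_option autoImplicit false

namespace Pool.Agent.OD

open MvPolynomial Matrix

theorem ACS_wt (w : Fin 4 → ℕ) (d : Fin 4 →₀ ℕ) :
    Finsupp.weight w d = d 0 * w 0 + d 1 * w 1 + d 2 * w 2 + d 3 * w 3 := by
  rw [Finsupp.weight_apply, Finsupp.sum_fintype _ _ (fun i => by simp), Fin.sum_univ_four]
  simp only [smul_eq_mul]

theorem ACS_mon {A : Type} [CommRing A] (w : Fin 4 → A) (d : Fin 4 →₀ ℕ) (c : A) :
    aeval (fun i => C (w i) * X i : Fin 4 → MvPolynomial (Fin 4) A) (monomial d c) =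
      (w 0 ^ d 0 * w 1 ^ d 1 * w 2 ^ d 2 * w 3 ^ d 3) • monomial d c := by
  rw [MvPolynomial.aeval_monomial, Finsupp.prod_fintype _ _ (fun i => by simp), Fin.prod_univ_four,
    MvPolynomial.monomial_eq, Finsupp.prod_fintype _ _ (fun i => by simp), Fin.prod_univ_four,
    MvPolynomial.algebraMap_eq, MvPolynomial.smul_eq_C_mul]
  simp only [mul_pow, map_mul, map_pow]
  ring

theorem ACS : ACS_stmt := by
  intro t A _ f z k P hP
  have h1 : act f (z • (1 : Mat t)) =
      aeval (fun i => C ((![f z, f z, f (star z), f (star z)] : Fin 4 → A) i) * X i : Fin 4 → MvPolynomial (Fin 4) A) := by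
    apply MvPolynomial.algHom_ext
    intro i
    fin_cases i <;> simp [act]
  rw [h1]
  conv_lhs => rw [P.as_sum]
  conv_rhs => rw [P.as_sum]
  rw [map_sum, Finset.smul_sum]
  refine Finset.sum_congr rfl (fun d hd => ?_)
  rw [ACS_mon]
  have hc : coeff d P ≠ 0 := MvPolynomial.mem_support_iff.1 hd
  have h2 := hP.1 hc
  have h3 := hP.2 hc
  rw [ACS_wt] at h2 h3
  have h2' : d 0 + d 1 = k := by simpa using h2
  have h3' : d 2 + d 3 = k := by simpa using h3
  congr 1
  show f z ^ d 0 * f z ^ d 1 * f (star z) ^ d 2 * f (star z) ^ d 3 = f (z * star z) ^ k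
  rw [← pow_add, h2', mul_assoc, ← pow_add, h3', map_mul, mul_pow]

end Pool.Agent.OD
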