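import Pool.Agent.helper21.OD.SpecA

/-! # Row od:CNJ (MP_2e0e07_nt) -/

set_option autoImplicit false

namespace Pool.Agent.OD

open MvPolynomial Matrix

theorem CNJ : CNJ_stmt := by
  intro t ℓ hℓ h hd
  obtain ⟨c, hc⟩ := hd
  have hdet : IsUnit (!![h.val 0 0, c; ((ℓ : ℕ) : Oz t) * h.val 1 0, h.val 1 1]).det := by
    have h1 : IsUnit h.val.det := (Matrix.isUnit_iff_isUnit_det _).1 h.isUnit
    have h2 : (!![h.val 0 0, c; ((ℓ : ℕ) : Oz t) * h.val 1 0, h.val 1 1]).det = h.val.det := by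
      rw [Matrix.det_fin_two_of, Matrix.det_fin_two, hc]
      ring
    rw [h2]
    exact h1
  obtain ⟨u, hu⟩ := (Matrix.isUnit_iff_isUnit_det _).2 hdet
  refine ⟨u, ?_, ?_, ?_⟩
  · have hu' : u.val = !![h.val 0 0, c; ((ℓ : ℕ) : Oz t) * h.val 1 0, h.val 1 1] := hu
    rw [hu']
    apply Matrix.ext
    intro i j
    fin_cases i <;> fin_cases j
    · simp [Matrix.mul_apply, Fin.sum_univ_two]
    · simp [Matrix.mul_apply, Fin.sum_univ_two, hc, mul_comm]
    · simp [Matrix.mul_apply, Fin.sum_univ_two]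
    · simp [Matrix.mul_apply, Fin.sum_univ_two, mul_comm]
  · have hu' : u.val = !![h.val 0 0, c; ((ℓ : ℕ) : Oz t) * h.val 1 0, h.val 1 1] := hu
    rw [hu']
    rfl
  · have hu' : u.val = !![h.val 0 0, c; ((ℓ : ℕ) : Oz t) * h.val 1 0, h.val 1 1] := hu
    rw [hu']
    rfl

end Pool.Agent.OD
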