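import Pool.Agent.helper21.OD.SpecA

/-! # Row od:NRL (MP_2e0e07_nt) -/

set_option autoImplicit false

namespace Pool.Agent.OD

open MvPolynomial Matrix

theorem NRL : NRL_stmt := by
  intro t ℓ hℓ hp κ _ π hκ x hx
  have hfact : Fact ℓ.Prime := ⟨hℓ⟩
  have hN : x * star x = ((QuadraticAlgebra.norm x : ℤ) : Oz t) := by
    rw [← QuadraticAlgebra.algebraMap_norm_eq_mul_star]
    rfl
  have hnd : ¬ (ℓ : ℤ) ∣ QuadraticAlgebra.norm x := by
    rintro ⟨c, hc⟩
    have h1 : ((ℓ : ℕ) : Oz t) ∣ x * star x := by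
      rw [hN, hc]
      push_cast
      exact Dvd.intro _ rfl
    rcases hp.dvd_or_dvd h1 with h2 | ⟨y, hy⟩
    · exact hx h2
    · apply hx
      refine ⟨star y, ?_⟩
      have h3 := congrArg star hy
      rw [star_star, star_mul', star_natCast] at h3
      exact h3
  have h1 : π (x * star x) ^ (ℓ - 1) = 1 := by
    have h2 : ((QuadraticAlgebra.norm x : ℤ) : ZMod ℓ) ≠ 0 := by
      intro h
      exact hnd ((ZMod.intCast_zmod_eq_zero_iff_dvd _ ℓ).1 h)
    have h3 := ZMod.pow_card_sub_one_eq_one h2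
    have h4 : (ℓ : ℤ) ∣ QuadraticAlgebra.norm x ^ (ℓ - 1) - 1 := by
      rw [← ZMod.intCast_zmod_eq_zero_iff_dvd]
      push_cast
      rw [h3, sub_self]
    obtain ⟨c, hc⟩ := h4
    have h5 : ((QuadraticAlgebra.norm x ^ (ℓ - 1) - 1 : ℤ) : κ) = 0 := by
      rw [hc]
      push_cast
      rw [hκ, zero_mul]
    rw [hN, map_intCast]
    push_cast at h5
    exact sub_eq_zero.1 h5
  refine ⟨h1, ?_⟩
  intro h0
  rw [map_mul, h0, zero_mul, zero_pow] at h1
  · exact zero_ne_one h1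
  · have := hℓ.two_le
    omega

end Pool.Agent.OD
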