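import Pool.Agent.helper21.OD.SpecA

/-! # Row od:PRM (MP_2e0e07_nt) -/

set_option autoImplicit false

namespace Pool.Agent.OD

open MvPolynomial Matrix

theorem PRM_det {t : ℤ} (h : GO t) : IsUnit (h.val 0 0 * h.val 1 1 - h.val 0 1 * h.val 1 0) := by
  have h1 : IsUnit h.val.det := (Matrix.isUnit_iff_isUnit_det _).1 h.isUnit
  rw [Matrix.det_fin_two] at h1
  exact h1

theorem PRM_row {t : ℤ} {ℓ : ℕ} (hp : Prime ((ℓ : ℕ) : Oz t)) (h : GO t) :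
    ¬ (((ℓ : ℕ) : Oz t) ∣ h.val 0 0 ∧ ((ℓ : ℕ) : Oz t) ∣ h.val 0 1) := by
  rintro ⟨h1, h2⟩
  exact hp.not_isUnit (isUnit_of_dvd_unit (dvd_sub (Dvd.dvd.mul_right h1 _) (Dvd.dvd.mul_right h2 _)) (PRM_det h))

theorem PRM_col1 {t : ℤ} {ℓ : ℕ} (hp : Prime ((ℓ : ℕ) : Oz t)) (h : GO t) :
    ¬ (((ℓ : ℕ) : Oz t) ∣ h.val 0 1 ∧ ((ℓ : ℕ) : Oz t) ∣ h.val 1 1) := by
  rintro ⟨h1, h2⟩
  exact hp.not_isUnit (isUnit_of_dvd_unit (dvd_sub (Dvd.dvd.mul_left h2 _) (Dvd.dvd.mul_right h1 _)) (PRM_det h))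

theorem PRM_col0 {t : ℤ} {ℓ : ℕ} (hp : Prime ((ℓ : ℕ) : Oz t)) (h : GO t) :
    ¬ (((ℓ : ℕ) : Oz t) ∣ h.val 0 0 ∧ ((ℓ : ℕ) : Oz t) ∣ h.val 1 0) := by
  rintro ⟨h1, h2⟩
  exact hp.not_isUnit (isUnit_of_dvd_unit (dvd_sub (Dvd.dvd.mul_right h1 _) (Dvd.dvd.mul_left h2 _)) (PRM_det h))

theorem PRM_mul {t : ℤ} (a b : Mat t) (i j : Fin 2) : (a * b) i j = a i 0 * b 0 j + a i 1 * b 1 j := by
  rw [Matrix.mul_apply, Fin.sum_univ_two]

/-- closed under inverses -/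
theorem PRM_inv {t : ℤ} {ℓ : ℕ} (hp : Prime ((ℓ : ℕ) : Oz t)) (h : GO t) (hd : ((ℓ : ℕ) : Oz t) ∣ h.val 0 1) :
    ((ℓ : ℕ) : Oz t) ∣ (h⁻¹ : GO t).val 0 1 := by
  have h1 : (h⁻¹ : GO t).val * h.val = 1 := by
    have : (h⁻¹ : GO t) * h = 1 := inv_mul_cancel h
    exact congrArg Units.val this
  have h2 : ((h⁻¹ : GO t).val * h.val) 0 1 = 0 := by
    rw [h1]
    rfl
  rw [PRM_mul] at h2
  have h3 : ((ℓ : ℕ) : Oz t) ∣ (h⁻¹ : GO t).val 0 1 * h.val 1 1 := by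
    have e : (h⁻¹ : GO t).val 0 1 * h.val 1 1 = -((h⁻¹ : GO t).val 0 0 * h.val 0 1) := by
      linear_combination h2
    rw [e]
    exact (dvd_neg).2 (Dvd.dvd.mul_left hd _)
  rcases hp.dvd_or_dvd h3 with h4 | h4
  · exact h4
  · exact absurd ⟨hd, h4⟩ (PRM_col1 hp h)

/-- inverses of the matrices `gI` -/
def PRM_gv (t : ℤ) {ℓ : ℕ} : Option (Fin ℓ × Fin ℓ) → Mat t
  | some x => !![1, -rep t x; 0, 1]
  | none => !![0, 1; -1, 0]

theorem PRM_gv1 (t : ℤ) {ℓ : ℕ} (i : Option (Fin ℓ × Fin ℓ)) : gI t i * PRM_gv t i = 1 := by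
  cases i with
  | none =>
    apply Matrix.ext
    intro a b
    fin_cases a <;> fin_cases b <;> simp [gI, PRM_gv, Matrix.mul_apply, Fin.sum_univ_two]
  | some x =>
    apply Matrix.ext
    intro a b
    fin_cases a <;> fin_cases b <;> simp [gI, PRM_gv, Matrix.mul_apply, Fin.sum_univ_two]

theorem PRM_gv2 (t : ℤ) {ℓ : ℕ} (i : Option (Fin ℓ × Fin ℓ)) : PRM_gv t i * gI t i = 1 := by
  cases i with
  | none =>
    apply Matrix.ext
    intro a b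
    fin_cases a <;> fin_cases b <;> simp [gI, PRM_gv, Matrix.mul_apply, Fin.sum_univ_two]
  | some x =>
    apply Matrix.ext
    intro a b
    fin_cases a <;> fin_cases b <;> simp [gI, PRM_gv, Matrix.mul_apply, Fin.sum_univ_two]

/-- the matrices `gI` as elements of the group -/
def PRM_G (t : ℤ) {ℓ : ℕ} (i : Option (Fin ℓ × Fin ℓ)) : GO t := ⟨gI t i, PRM_gv t i, PRM_gv1 t i, PRM_gv2 t i⟩

/-- two different indices never give the same coset -/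
theorem PRM_uniq {t : ℤ} {ℓ : ℕ} (hrep : ∀ x y : Fin ℓ × Fin ℓ, ((ℓ : ℕ) : Oz t) ∣ rep t x - rep t y → x = y)
    (hp : Prime ((ℓ : ℕ) : Oz t)) (h h' : GO t) (hd : ((ℓ : ℕ) : Oz t) ∣ h.val 0 1)
    (hd' : ((ℓ : ℕ) : Oz t) ∣ h'.val 0 1) (i j : Option (Fin ℓ × Fin ℓ))
    (heq : h.val * gI t i = h'.val * gI t j) : i = j := by
  have e0 : (h.val * gI t i) 0 0 = (h'.val * gI t j) 0 0 := by rw [heq]
  have e1 : (h.val * gI t i) 0 1 = (h'.val * gI t j) 0 1 := by rw [heq]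
  rw [PRM_mul, PRM_mul] at e0 e1
  cases i with
  | none =>
    cases j with
    | none => rfl
    | some y =>
      exfalso
      have e0' : h.val 0 0 * 0 + h.val 0 1 * 1 = h'.val 0 0 * 1 + h'.val 0 1 * 0 := e0
      apply PRM_row hp h'
      refine ⟨?_, hd'⟩
      have e2 : h'.val 0 0 = h.val 0 1 := by linear_combination -e0'
      rw [e2]
      exact hd
  | some x =>
    cases j with
    | none =>
      exfalso
      have e0' : h.val 0 0 * 1 + h.val 0 1 * 0 = h'.val 0 0 * 0 + h'.val 0 1 * 1 := e0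
      apply PRM_row hp h
      refine ⟨?_, hd⟩
      have e2 : h.val 0 0 = h'.val 0 1 := by linear_combination e0'
      rw [e2]
      exact hd'
    | some y =>
      have e0' : h.val 0 0 * 1 + h.val 0 1 * 0 = h'.val 0 0 * 1 + h'.val 0 1 * 0 := e0
      have e1' : h.val 0 0 * rep t x + h.val 0 1 * 1 = h'.val 0 0 * rep t y + h'.val 0 1 * 1 := e1
      have e2 : h.val 0 0 = h'.val 0 0 := by linear_combination e0'
      have e3 : h.val 0 0 * (rep t x - rep t y) = h'.val 0 1 - h.val 0 1 := by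
        linear_combination e1' - rep t y * e2
      have e4 : ((ℓ : ℕ) : Oz t) ∣ h.val 0 0 * (rep t x - rep t y) := by
        rw [e3]
        exact dvd_sub hd' hd
      rcases hp.dvd_or_dvd e4 with h5 | h5
      · exact absurd ⟨h5, hd⟩ (PRM_row hp h)
      · rw [hrep x y h5]

/-- a matrix whose upper left entry is invertible modulo `ℓ` -/
theorem PRM_some (hREP : REP_stmt) {t : ℤ} {ℓ : ℕ} (hℓ : ℓ.Prime) (hp : Prime ((ℓ : ℕ) : Oz t)) (g : GO t)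
    (hg : ¬ ((ℓ : ℕ) : Oz t) ∣ g.val 0 0) : ∃ y : Fin ℓ × Fin ℓ, ∃ h : GO t, ((ℓ : ℕ) : Oz t) ∣ h.val 0 1 ∧
      g.val = h.val * gI t (some y) ∧ h.val 1 0 = g.val 1 0 ∧ h.val 1 1 = g.val 1 1 - g.val 1 0 * rep t y := by
  obtain ⟨r1, -, r3⟩ := hREP t ℓ hℓ
  obtain ⟨p', hp'⟩ := r3 hp _ hg
  obtain ⟨y, hy⟩ := r1 (g.val 0 1 * p')
  have hval : (g * (PRM_G t (some y))⁻¹).val = g.val * PRM_gv t (some y) := rfl
  refine ⟨y, g * (PRM_G t (some y))⁻¹, ?_, ?_, ?_, ?_⟩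
  · rw [hval, PRM_mul]
    show ((ℓ : ℕ) : Oz t) ∣ g.val 0 0 * (-rep t y) + g.val 0 1 * 1
    have e : g.val 0 0 * (-rep t y) + g.val 0 1 * 1 =
        g.val 0 0 * (g.val 0 1 * p' - rep t y) - g.val 0 1 * (g.val 0 0 * p' - 1) := by ring
    rw [e]
    exact dvd_sub (Dvd.dvd.mul_left hy _) (Dvd.dvd.mul_left hp' _)
  · have e : g * (PRM_G t (some y))⁻¹ * PRM_G t (some y) = g := inv_mul_cancel_right g _
    exact (congrArg Units.val e).symm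
  · rw [hval, PRM_mul]
    show g.val 1 0 * 1 + g.val 1 1 * 0 = _
    ring
  · rw [hval, PRM_mul]
    show g.val 1 0 * (-rep t y) + g.val 1 1 * 1 = _
    ring

theorem PRM_ex (hREP : REP_stmt) {t : ℤ} {ℓ : ℕ} (hℓ : ℓ.Prime) (hp : Prime ((ℓ : ℕ) : Oz t)) (g : GO t) :
    ∃ j : Option (Fin ℓ × Fin ℓ), ∃ h : GO t, ((ℓ : ℕ) : Oz t) ∣ h.val 0 1 ∧ g.val = h.val * gI t j := by
  by_cases hg : ((ℓ : ℕ) : Oz t) ∣ g.val 0 0
  · have hval : (g * (PRM_G t (none : Option (Fin ℓ × Fin ℓ)))⁻¹).val = g.val * PRM_gv t (none : Option (Fin ℓ × Fin ℓ)) := rfl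
    refine ⟨none, g * (PRM_G t (none : Option (Fin ℓ × Fin ℓ)))⁻¹, ?_, ?_⟩
    · rw [hval, PRM_mul]
      show ((ℓ : ℕ) : Oz t) ∣ g.val 0 0 * 1 + g.val 0 1 * 0
      rw [mul_one, mul_zero, add_zero]
      exact hg
    · have e : g * (PRM_G t (none : Option (Fin ℓ × Fin ℓ)))⁻¹ * PRM_G t (none : Option (Fin ℓ × Fin ℓ)) = g :=
        inv_mul_cancel_right g _
      exact (congrArg Units.val e).symm
  · obtain ⟨y, h, h1, h2, -, -⟩ := PRM_some hREP hℓ hp g hg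
    exact ⟨some y, h, h1, h2⟩

/-- injectivity -/
theorem PRM_inj {t : ℤ} {ℓ : ℕ} (hrep : ∀ x y : Fin ℓ × Fin ℓ, ((ℓ : ℕ) : Oz t) ∣ rep t x - rep t y → x = y)
    (hp : Prime ((ℓ : ℕ) : Oz t)) (γ h h' : GO t) (hd : ((ℓ : ℕ) : Oz t) ∣ h.val 0 1)
    (hd' : ((ℓ : ℕ) : Oz t) ∣ h'.val 0 1) (i i' j : Option (Fin ℓ × Fin ℓ))
    (h1 : gI t i * γ.val = h.val * gI t j) (h2 : gI t i' * γ.val = h'.val * gI t j) : i = i' := by
  apply PRM_uniq hrep hp h⁻¹ h'⁻¹ (PRM_inv hp h hd) (PRM_inv hp h' hd') i i'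
  have a1 : PRM_G t i * γ = h * PRM_G t j := Units.ext h1
  have a2 : PRM_G t i' * γ = h' * PRM_G t j := Units.ext h2
  have a3 : h⁻¹ * PRM_G t i = h'⁻¹ * PRM_G t i' := by
    have b1 : h⁻¹ * PRM_G t i = PRM_G t j * γ⁻¹ := by
      rw [inv_mul_eq_iff_eq_mul, ← mul_assoc, eq_mul_inv_iff_mul_eq]
      exact a1
    have b2 : h'⁻¹ * PRM_G t i' = PRM_G t j * γ⁻¹ := by
      rw [inv_mul_eq_iff_eq_mul, ← mul_assoc, eq_mul_inv_iff_mul_eq]
      exact a2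
    rw [b1, b2]
  exact congrArg Units.val a3

theorem PRM (hREP : REP_stmt) : PRM_stmt := by
  intro t ℓ hℓ hp γ
  have hex : ∀ i : Option (Fin ℓ × Fin ℓ), ∃ j : Option (Fin ℓ × Fin ℓ), ∃ h : GO t,
      ((ℓ : ℕ) : Oz t) ∣ h.val 0 1 ∧ gI t i * γ.val = h.val * gI t j :=
    fun i => PRM_ex hREP hℓ hp (PRM_G t i * γ)
  choose σ h h1 h2 using hex
  have hinj : Function.Injective σ := by
    intro i i' hii
    have e2 := h2 i'
    rw [← hii] at e2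
    exact PRM_inj (hREP t ℓ hℓ).2.1 hp γ (h i) (h i') (h1 i) (h1 i') i i' (σ i) (h2 i) e2
  refine ⟨Equiv.ofBijective σ (Finite.injective_iff_bijective.1 hinj), ?_⟩
  intro i
  exact ⟨h i, h1 i, h2 i⟩

end Pool.Agent.OD
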