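import Pool.Agent.helper21.OD.SpecA
import Pool.Agent.helper89.OD.PRM

/-! # Row od:PRU (MP_2e0e07_nt) -/

set_option autoImplicit false

namespace Pool.Agent.OD

open MvPolynomial Matrix

theorem PRU (hREP : REP_stmt) : PRU_stmt := by
  intro t ℓ hℓ hp γ hγ
  have hex : ∀ x : Fin ℓ × Fin ℓ, ∃ y : Fin ℓ × Fin ℓ, ∃ h : GO t, ((ℓ : ℕ) : Oz t) ∣ h.val 0 1 ∧
      gI t (some x) * γ.val = h.val * gI t (some y) ∧ h.val 1 0 = γ.val 1 0 ∧
      h.val 1 1 = γ.val 1 1 - γ.val 1 0 * rep t y := by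
    intro x
    have hval : (PRM_G t (some x) * γ).val = gI t (some x) * γ.val := rfl
    have e00 : (gI t (some x) * γ.val) 0 0 = γ.val 0 0 + rep t x * γ.val 1 0 := by
      rw [PRM_mul]
      show 1 * γ.val 0 0 + rep t x * γ.val 1 0 = _
      ring
    have e10 : (gI t (some x) * γ.val) 1 0 = γ.val 1 0 := by
      rw [PRM_mul]
      show 0 * γ.val 0 0 + 1 * γ.val 1 0 = _
      ring
    have e11 : (gI t (some x) * γ.val) 1 1 = γ.val 1 1 := by
      rw [PRM_mul]
      show 0 * γ.val 0 1 + 1 * γ.val 1 1 = _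
      ring
    have hg : ¬ ((ℓ : ℕ) : Oz t) ∣ (PRM_G t (some x) * γ).val 0 0 := by
      rw [hval, e00]
      intro h1
      apply PRM_col0 hp γ
      refine ⟨?_, hγ⟩
      have e : γ.val 0 0 = (γ.val 0 0 + rep t x * γ.val 1 0) - rep t x * γ.val 1 0 := by ring
      rw [e]
      exact dvd_sub h1 (Dvd.dvd.mul_left hγ _)
    obtain ⟨y, h, h1, h2, h3, h4⟩ := PRM_some hREP hℓ hp (PRM_G t (some x) * γ) hg
    rw [hval] at h2 h3 h4
    rw [e10] at h3
    rw [e11, e10] at h4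
    exact ⟨y, h, h1, h2, h3, h4⟩
  choose σ h h1 h2 h3 h4 using hex
  have hinj : Function.Injective σ := by
    intro x x' hxx
    have e2 := h2 x'
    rw [← hxx] at e2
    have := PRM_inj (hREP t ℓ hℓ).2.1 hp γ (h x) (h x') (h1 x) (h1 x') (some x) (some x') (some (σ x)) (h2 x) e2
    exact Option.some_injective _ this
  refine ⟨Equiv.ofBijective σ (Finite.injective_iff_bijective.1 hinj), ?_⟩
  intro x
  exact ⟨h x, h1 x, h3 x, h4 x, h2 x⟩

end Pool.Agent.OD
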